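import Pool.Agent.K1H35.SH.Stm2
import Pool.Agent.K1H35.SH.Fin

/-!
# Project SQ (helper35), piece QGB: few merged pairs
-/

set_option autoImplicit false

namespace Pool.Agent.K1H65.SQ.QGB

open Finset Pool.Agent.K1H35.SH

theorem cnt_card {n d : ℕ} (P : SimpleGraph (Fin n) → Prop) [DecidablePred P] :
    cnt n d P = ((reg n d).filter P).card := by
  unfold cnt
  congr

theorem cnt_zero {n d : ℕ} (P : SimpleGraph (Fin n) → Prop) (h : ∀ G ∈ reg n d, ¬ P G) :
    cnt n d P = 0 := by
  classical
  rw [cnt_card, Finset.card_eq_zero, Finset.filter_eq_empty_iff]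
  exact fun {G} hG => h G hG

theorem E2_univ {n d : ℕ} (G : SimpleGraph (Fin n)) (h : G ∈ reg n d) : E2 G univ = n * d := by
  classical
  rw [mem_reg] at h
  have h0 : E2 G univ = ((univ : Finset (Fin n × Fin n)).filter (fun p => G.Adj p.1 p.2)).card := by
    unfold E2
    congr 1
    ext p
    simp
  rw [h0, Finset.card_filter, Fintype.sum_prod_type]
  have h2 : ∀ v : Fin n, (∑ y : Fin n, if G.Adj v y then 1 else 0) = d := by
    intro v
    rw [← h v, ← Finset.card_filter]
    congr 1
  rw [Finset.sum_congr rfl fun v _ => h2 v]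
  simp

theorem cnt_mono {n d : ℕ} (P Q : SimpleGraph (Fin n) → Prop)
    (h : ∀ G ∈ reg n d, P G → Q G) : cnt n d P ≤ cnt n d Q := by
  classical
  rw [cnt_card, cnt_card]
  refine Finset.card_le_card fun G hG => ?_
  rw [Finset.mem_filter] at hG ⊢
  exact ⟨hG.1, h G hG.1 hG.2⟩

theorem cnt_exists {n d : ℕ} {ι : Type} [Fintype ι] (P : ι → SimpleGraph (Fin n) → Prop) :
    cnt n d (fun G => ∃ i, P i G) ≤ ∑ i, cnt n d (P i) := by
  classical
  rw [cnt_card]
  have h : (reg n d).filter (fun G => ∃ i, P i G) ⊆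
      (univ : Finset ι).biUnion (fun i => (reg n d).filter (P i)) := by
    intro G hG
    rw [Finset.mem_filter] at hG
    obtain ⟨hG, i, hi⟩ := hG
    exact Finset.mem_biUnion.mpr ⟨i, Finset.mem_univ _, Finset.mem_filter.mpr ⟨hG, hi⟩⟩
  refine (Finset.card_le_card h).trans (Finset.card_biUnion_le.trans ?_)
  exact Finset.sum_le_sum fun i _ => (cnt_card (P i)).ge

/-- one family -/
theorem one {n d s Dm : ℕ} (h : S_LCC) (hn : 64 * d ≤ n) (hd : 64 ≤ d)
    (g : Fin s → Fin d → Fin n × Fin n) (hg : Dm < (Merged g).ncard) :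
    (cnt n d (fun G => Conf g G) : ℝ) * (1 + ((n * d : ℕ) : ℝ) / (n : ℝ) ^ 2) ^ ((Dm + 1) / 4) ≤
      (n : ℝ) ^ (n + 4) * ((reg n d).card : ℝ) := by
  classical
  by_cases hinj : ∀ i, Function.Injective (fun a => (g i a).1) ∧ Function.Injective (fun a => (g i a).2)
  swap
  · have h0 : cnt n d (fun G => Conf g G) = 0 := cnt_zero _ fun G _ hG => hinj hG.1
    rw [h0]
    simp only [Nat.cast_zero, zero_mul]
    positivity
  · have hfin : (Merged g).Finite := Set.toFinite _
    have hwit : ∀ e : Sym2 (Fin n), e ∈ Merged g → ∃ f : Sym2 (Fin n), f ≠ e ∧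
        ∀ G : SimpleGraph (Fin n), Conf g G → (e ∈ G.edgeSet ↔ f ∈ G.edgeSet) := by
      rintro e ⟨i, a, b, i', a', b', hab, hab', he, him, hne⟩
      refine ⟨s((g i' a').1, (g i' b').1), hne, fun G hG => ?_⟩
      rw [he, SimpleGraph.mem_edgeSet, SimpleGraph.mem_edgeSet]
      exact hG.2 i a b i' a' b' hab hab' him
    choose! τ hτ using hwit
    have key := h n d univ hfin.toFinset τ (fun _ => False) ((Dm + 1) / 4) (n * d)
      (by rw [Finset.card_univ, Fintype.card_fin]; omega)
      (by
        intro e he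
        rw [Set.Finite.mem_toFinset] at he
        obtain ⟨i, a, b, i', a', b', hab, hab', he, him, hne⟩ := he
        unfold prs
        rw [Finset.mem_filter]
        refine ⟨Finset.mem_univ _, ?_, fun x _ => Finset.mem_univ _⟩
        rw [he, Sym2.mk_isDiag_iff]
        exact fun h => hab ((hinj i).1 h))
      (by
        intro e he
        rw [Set.Finite.mem_toFinset] at he
        exact ⟨(hτ e he).1, fun x _ => Finset.mem_univ _⟩)
      (by
        rw [← Set.ncard_eq_toFinset_card _ hfin]
        omega)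
    rw [Finset.card_univ, Fintype.card_fin] at key
    refine le_trans ?_ key
    refine mul_le_mul_of_nonneg_right ?_ (by positivity)
    rw [Nat.cast_le]
    refine cnt_mono _ _ fun G hG hc => ?_
    rw [E2_univ G hG]
    refine ⟨le_refl _, ?_, ?_⟩
    · have h1 : 2 * d ≤ n - 1 := by omega
      calc 2 * (n * d) = n * (2 * d) := by ring
        _ ≤ n * (n - 1) := Nat.mul_le_mul_left _ h1
    · intro e he
      rw [Set.Finite.mem_toFinset] at he
      have := (hτ e he).2 G hc
      rw [this]
      constructor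
      · intro h'
        exact Or.inl ⟨h', fun h'' => h''⟩
      · rintro (⟨h', _⟩ | ⟨h', _⟩)
        · exact h'
        · exact h'.elim

theorem t_QGB (h : S_LCC) : S_QGB := by
  classical
  intro n d s Dm L hn hL hdn hd hDm
  set k := L * (n + 2 * s * d + 6) with hk
  set q := n / d + 1 with hq
  have hd0 : 0 < d := by omega
  have hn0 : 0 < n := by omega
  -- the exponent
  have hkq : k * q ≤ (Dm + 1) / 4 := by
    rw [Nat.le_div_iff_mul_le (by norm_num)]
    have h1 : k * q * 4 * d ≤ Dm * d := by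
      have h2 : q * d ≤ 2 * n := by
        have := Nat.div_mul_le_self n d
        rw [hq, add_mul, one_mul]
        omega
      calc k * q * 4 * d = 4 * k * (q * d) := by ring
        _ ≤ 4 * k * (2 * n) := Nat.mul_le_mul_left _ h2
        _ = 8 * L * n * (n + 2 * s * d + 6) := by rw [hk]; ring
        _ ≤ 8 * L * n * (n + 2 * s * d + 8) := Nat.mul_le_mul_left _ (by omega)
        _ ≤ Dm * d := hDm
    have h3 := Nat.le_of_mul_le_mul_right h1 hd0
    omega
  -- the base
  have hbase : (2 : ℝ) ^ k ≤ (1 + ((n * d : ℕ) : ℝ) / (n : ℝ) ^ 2) ^ ((Dm + 1) / 4) := by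
    set y : ℝ := ((n * d : ℕ) : ℝ) / (n : ℝ) ^ 2 with hy
    have hy0 : 0 ≤ y := by positivity
    have hqy : 1 ≤ (q : ℝ) * y := by
      have h1 : n < q * d := by
        rw [hq, mul_comm]
        exact Nat.lt_mul_div_succ n hd0
      have hnR : (0 : ℝ) < n := by exact_mod_cast hn0
      have h2 : (n : ℝ) ≤ (q : ℝ) * d := by exact_mod_cast h1.le
      rw [hy]
      push_cast
      rw [← mul_div_assoc, le_div_iff₀ (by positivity)]
      nlinarith
    have h2 : (2 : ℝ) ≤ (1 + y) ^ q := by
      have := one_add_mul_le_pow (by linarith : (-2 : ℝ) ≤ y) q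
      linarith
    calc (2 : ℝ) ^ k ≤ ((1 + y) ^ q) ^ k := pow_le_pow_left₀ (by norm_num) h2 k
      _ = (1 + y) ^ (k * q) := by rw [← pow_mul, mul_comm]
      _ ≤ (1 + y) ^ ((Dm + 1) / 4) := pow_le_pow_right₀ (by linarith) hkq
  -- one family
  have hone : ∀ g : Fin s → Fin d → Fin n × Fin n,
      cnt n d (fun G => Conf g G ∧ Dm < (Merged g).ncard) * 2 ^ k ≤ n ^ (n + 4) * (reg n d).card := by
    intro g
    by_cases hg : Dm < (Merged g).ncard
    · have h1 := one h hdn hd g hg
      have h2 : cnt n d (fun G => Conf g G ∧ Dm < (Merged g).ncard) ≤ cnt n d (fun G => Conf g G) :=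
        cnt_mono _ _ fun G _ hG => hG.1
      have h3 : ((cnt n d (fun G => Conf g G ∧ Dm < (Merged g).ncard) * 2 ^ k : ℕ) : ℝ) ≤
          ((n ^ (n + 4) * (reg n d).card : ℕ) : ℝ) := by
        push_cast
        refine le_trans ?_ h1
        exact mul_le_mul (by exact_mod_cast h2) hbase (by positivity) (by positivity)
      exact_mod_cast h3
    · have h0 : cnt n d (fun G => Conf g G ∧ Dm < (Merged g).ncard) = 0 :=
        cnt_zero _ fun G _ hG => hg hG.2
      rw [h0, zero_mul]
      exact Nat.zero_le _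
  -- the union bound
  have hun : cnt n d (fun G => ¬ QG d s Dm G) ≤
      ∑ g : Fin s → Fin d → Fin n × Fin n, cnt n d (fun G => Conf g G ∧ Dm < (Merged g).ncard) := by
    refine le_trans (cnt_mono _ (fun G => ∃ g : Fin s → Fin d → Fin n × Fin n,
      Conf g G ∧ Dm < (Merged g).ncard) fun G _ hG => ?_) (cnt_exists _)
    unfold QG at hG
    push Not at hG
    exact hG
  have hcard : Fintype.card (Fin s → Fin d → Fin n × Fin n) = n ^ (2 * s * d) := by
    simp only [Fintype.card_fun, Fintype.card_prod, Fintype.card_fin]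
    rw [← pow_two, ← pow_mul, ← pow_mul]
    congr 1
    ring
  have hfin : cnt n d (fun G => ¬ QG d s Dm G) * n ^ 2 * 2 ^ k ≤ (reg n d).card * 2 ^ k := by
    calc cnt n d (fun G => ¬ QG d s Dm G) * n ^ 2 * 2 ^ k
        ≤ (∑ g : Fin s → Fin d → Fin n × Fin n,
            cnt n d (fun G => Conf g G ∧ Dm < (Merged g).ncard)) * n ^ 2 * 2 ^ k :=
          Nat.mul_le_mul_right _ (Nat.mul_le_mul_right _ hun)
      _ = n ^ 2 * ∑ g : Fin s → Fin d → Fin n × Fin n,
            cnt n d (fun G => Conf g G ∧ Dm < (Merged g).ncard) * 2 ^ k := by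
          rw [← Finset.sum_mul]
          ring
      _ ≤ n ^ 2 * ∑ _g : Fin s → Fin d → Fin n × Fin n, n ^ (n + 4) * (reg n d).card :=
          Nat.mul_le_mul_left _ (Finset.sum_le_sum fun g _ => hone g)
      _ = n ^ (n + 2 * s * d + 6) * (reg n d).card := by
          rw [Finset.sum_const, Finset.card_univ, hcard, smul_eq_mul]
          ring
      _ ≤ (2 ^ L) ^ (n + 2 * s * d + 6) * (reg n d).card :=
          Nat.mul_le_mul_right _ (Nat.pow_le_pow_left hn _)
      _ = (reg n d).card * 2 ^ k := by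
          rw [← pow_mul, hk, mul_comm]
  exact Nat.le_of_mul_le_mul_right hfin (by positivity)

end Pool.Agent.K1H65.SQ.QGB
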